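import Pool.Agent.H79.EstDefs
import Pool.Agent.H79.FastDefs
import Pool.Agent.H79.FastLower

/-!
# Online estimators with a fixed polynomial running time have linear regret
-/

namespace Pool.Agent.Results.MP_3fc2d9_lc.FixedExponent

open Pool.Agent.H79.Est

/-- For every exponent `K` there is an offline estimator `q` in `P` such that every online estimator
`qt` in `TIME(n ^ K)` has regret at least `n ln 2 - C` relative to `q` for all large `n`, where the
constant `C` depends on `qt`. -/
theorem result (K : ℕ) :
    ∃ q : List Bool → ℝ, IsOffline q ∧ InP q ∧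
      ∀ qt : List Bool → ℝ, IsOnline qt → InTIME K qt →
        ∃ C : ℝ, ∀ᶠ n : ℕ in Filter.atTop,
          ((n * Real.log 2 - C : ℝ) : EReal) ≤ regret qt q n :=
  ⟨Fast.q K, Fast.q_isOffline K, Fast.q_InP K, fun _ h hT => Fast.main h hT⟩

end Pool.Agent.Results.MP_3fc2d9_lc.FixedExponent
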