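import Pool.Agent.H79.EstDefs
import Pool.Agent.H79.EstLower

/-!
# An offline estimator in `P` against which every online estimator in `P` has regret `≥ n ^ δ`
-/

namespace Pool.Agent.Results.MP_3fc2d9_lc.PolylogRegretFails

open Pool.Agent.H79.Est

/-- Some offline estimator `q` in `P` is such that every online estimator `qt` in `P` has regret at
least `n ^ δ` relative to `q` for all large `n`, where `δ > 0` depends on `qt`. -/
theorem result :
    ∃ q : List Bool → ℝ, IsOffline q ∧ InP q ∧
      ∀ qt : List Bool → ℝ, IsOnline qt → InP qt →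
        ∃ δ : ℝ, 0 < δ ∧ ∀ᶠ n : ℕ in Filter.atTop,
          (((n : ℝ) ^ δ : ℝ) : EReal) ≤ regret qt q n :=
  ⟨q, q_isOffline, q_InP, fun _ h hP => main h hP⟩

end Pool.Agent.Results.MP_3fc2d9_lc.PolylogRegretFails
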